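import Pool.Agent.Helper82.RD.Defs

/-!
# Project RD (MP_86d903_lc), module SPB: the second splitting condition
-/

set_option autoImplicit false

open Finset MP86d903

namespace Pool.Agent.Helper82.RD

variable {ι V : Type} [DecidableEq ι] [Fintype ι] [Fintype V] [DecidableEq V]
  {vs ng : ι → Finset V} {q : ℕ}

theorem mSPB {A J : Finset V} (hCL : CL vs q A) (hJ : UA vs A J) : SPb vs (A ∪ J) := by
  intro c hc
  have hcA : ¬ vs c ⊆ A := fun h => hc (h.trans subset_union_left)
  have h2 : 2 ≤ (vs c \ A).card := hCL.two c hcA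
  have h3 : (vs c \ A).card ≤ 3 := hCL.le3 c
  rcases Nat.lt_or_ge (vs c \ A).card 3 with h | h
  · have h4 : (vs c \ A).card = 2 := by omega
    rcases hJ.pair c h4 with h5 | h5
    · exfalso
      apply hc
      intro x hx
      rw [mem_union]
      by_cases hxA : x ∈ A
      · exact Or.inl hxA
      · exact Or.inr (h5 (mem_sdiff.2 ⟨hx, hxA⟩))
    · have h6 : vs c \ (A ∪ J) = vs c \ A := by
        ext x
        simp only [mem_sdiff, mem_union, not_or]
        constructor
        · rintro ⟨a, b, _⟩
          exact ⟨a, b⟩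
        · rintro ⟨a, b⟩
          exact ⟨a, b, fun hxJ => (disjoint_left.1 h5) a hxJ⟩
      rw [h6, h4]
  · have h4 : (vs c \ A).card = 3 := by omega
    have h5 := hJ.three c h4
    have h6 : (vs c \ A) \ (vs c ∩ J) ⊆ vs c \ (A ∪ J) := by
      intro x hx
      simp only [mem_sdiff, mem_union, mem_inter, not_or, not_and] at hx ⊢
      exact ⟨hx.1.1, hx.1.2, hx.2 hx.1.1⟩
    have h7 := card_le_card h6
    have h8 := le_card_sdiff (vs c ∩ J) (vs c \ A)
    omega

end Pool.Agent.Helper82.RD
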